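import Pool.Agent.Lib.MP_6bc78b_nt.GP.H62.Defs7

/-! # PRBX: the prime powers -/

set_option autoImplicit false

open Complex Filter Topology MeasureTheory ArithmeticFunction Set

namespace Pool.Agent.Lib.MP_6bc78b_nt.GP.G7.H57

/-- P4: the prime powers. -/
def P4Statement : Prop := ∃ C T0 : ℝ, 0 < C ∧ 10 < T0 ∧
  ∀ (T t : ℝ) (j : ℕ), T0 ≤ T → 1 ≤ j → (j : ℝ) / Real.log T ≤ Real.log T →
    ‖Rj T j t - ∑' n : ℕ, ((vonMangoldt n * Real.log n * hatw (1 / Real.log T) j n : ℝ) : ℂ) *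
      (n : ℂ) ^ (-(1 + t * I : ℂ))‖ ≤
      C * Real.log T ^ 4 * Real.exp (-((j : ℝ) / (2 * Real.log T)))

theorem hatw_nonneg (θ : ℝ) (j : ℕ) (v : ℝ) : 0 ≤ hatw θ j v := le_max_left _ _

theorem hatw_le_one (θ : ℝ) (hθ : 0 < θ) (j : ℕ) (v : ℝ) : hatw θ j v ≤ 1 := by
  have h1 : Real.exp (θ * (j - 1)) < Real.exp (θ * j) := by
    rw [Real.exp_lt_exp]
    nlinarith
  have h2 : Real.exp (θ * j) < Real.exp (θ * (j + 1)) := by
    rw [Real.exp_lt_exp]
    nlinarith
  refine max_le zero_le_one ?_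
  rcases le_total v (Real.exp (θ * j)) with h | h
  · refine (min_le_left _ _).trans ?_
    rw [div_le_one (by linarith)]
    linarith
  · refine (min_le_right _ _).trans ?_
    rw [div_le_one (by linarith)]
    linarith

theorem hatw_right (θ : ℝ) (hθ : 0 < θ) (j : ℕ) (v : ℝ) (h : Real.exp (θ * (j + 1)) ≤ v) :
    hatw θ j v = 0 := by
  have h2 : Real.exp (θ * j) < Real.exp (θ * (j + 1)) := by
    rw [Real.exp_lt_exp]
    nlinarith
  refine max_eq_left ((min_le_right _ _).trans ?_)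
  exact div_nonpos_of_nonpos_of_nonneg (by linarith) (by linarith)

theorem hatw_left (θ : ℝ) (hθ : 0 < θ) (j : ℕ) (v : ℝ) (h : v ≤ Real.exp (θ * (j - 1))) :
    hatw θ j v = 0 := by
  have h2 : Real.exp (θ * (j - 1)) < Real.exp (θ * j) := by
    rw [Real.exp_lt_exp]
    nlinarith
  refine max_eq_left ((min_le_left _ _).trans ?_)
  exact div_nonpos_of_nonpos_of_nonneg (by linarith) (by linarith)

theorem norm_pow (t : ℝ) (n : ℕ) (hn : 0 < n) : ‖(n : ℂ) ^ (-(1 + t * I : ℂ))‖ = 1 / n := by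
  rw [Complex.norm_natCast_cpow_of_pos hn]
  have h1 : (-(1 + t * I : ℂ)).re = -1 := by simp
  rw [h1, Real.rpow_neg_one, one_div]

/-- The difference of the sum over `n` and the sum over primes. -/
theorem diff_eq (T t : ℝ) (hT : 0 < Real.log T) (j : ℕ) :
    ∑' n : ℕ, ((vonMangoldt n * Real.log n * hatw (1 / Real.log T) j n : ℝ) : ℂ) *
      (n : ℂ) ^ (-(1 + t * I : ℂ)) - Rj T j t =
    ∑ n ∈ (Finset.range (⌊Real.exp ((j + 1) / Real.log T)⌋₊ + 1)).filter (fun n => ¬ n.Prime),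
      ((vonMangoldt n * Real.log n * hatw (1 / Real.log T) j n : ℝ) : ℂ) *
        (n : ℂ) ^ (-(1 + t * I : ℂ)) := by
  have h0 : ∀ n ∉ Finset.range (⌊Real.exp ((j + 1) / Real.log T)⌋₊ + 1),
      ((vonMangoldt n * Real.log n * hatw (1 / Real.log T) j n : ℝ) : ℂ) *
        (n : ℂ) ^ (-(1 + t * I : ℂ)) = 0 := by
    intro n hn
    have h1 : ⌊Real.exp ((j + 1) / Real.log T)⌋₊ < n := by
      rw [Finset.mem_range] at hn
      omega
    have h2 : Real.exp ((j + 1) / Real.log T) < n := (Nat.floor_lt (Real.exp_pos _).le).1 h1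
    rw [hatw_right (1 / Real.log T) (by positivity) j n (by
      rw [one_div, inv_mul_eq_div]
      exact h2.le), mul_zero, ofReal_zero, zero_mul]
  rw [tsum_eq_sum h0, ← Finset.sum_filter_add_sum_filter_not _ (fun n : ℕ => n.Prime)]
  have h3 : Rj T j t = ∑ n ∈ (Finset.range (⌊Real.exp ((j + 1) / Real.log T)⌋₊ + 1)).filter
      (fun n => n.Prime), ((vonMangoldt n * Real.log n * hatw (1 / Real.log T) j n : ℝ) : ℂ) *
        (n : ℂ) ^ (-(1 + t * I : ℂ)) := by
    unfold Rj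
    refine Finset.sum_congr rfl fun p hp => ?_
    have hp' : p.Prime := (Finset.mem_filter.1 hp).2
    rw [vonMangoldt_apply_prime hp']
    congr 2
    ring
  rw [h3, add_sub_cancel_left]

theorem sum_nonprime (x : ℝ) (hx : 1 ≤ x) :
    ∑ n ∈ (Finset.range (⌊x⌋₊ + 1)).filter (fun n => ¬ n.Prime), vonMangoldt n ≤
      2 * Real.sqrt x * Real.log x := by
  have h1 := Chebyshev.abs_psi_sub_theta_le_sqrt_mul_log hx
  have h2 : Chebyshev.psi x = ∑ n ∈ Finset.range (⌊x⌋₊ + 1), vonMangoldt n := by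
    rw [Chebyshev.psi_eq_sum_Icc]
    refine Finset.sum_congr ?_ fun _ _ => rfl
    ext n
    simp [Nat.lt_succ_iff]
  have h3 : Chebyshev.theta x =
      ∑ n ∈ (Finset.range (⌊x⌋₊ + 1)).filter (fun n => n.Prime), vonMangoldt n := by
    rw [Chebyshev.theta_eq_sum_Icc]
    have e : Finset.Icc 0 ⌊x⌋₊ = Finset.range (⌊x⌋₊ + 1) := by
      ext n
      simp [Nat.lt_succ_iff]
    rw [e]
    refine Finset.sum_congr rfl fun p hp => ?_
    rw [vonMangoldt_apply_prime (Finset.mem_filter.1 hp).2]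
  have h4 := Finset.sum_filter_add_sum_filter_not (Finset.range (⌊x⌋₊ + 1))
    (fun n : ℕ => n.Prime) (fun n => vonMangoldt n)
  have h5 := le_of_abs_le h1
  rw [h2, h3] at h5
  linarith

/-- P4. -/
theorem p4 : P4Statement := by
  refine ⟨8 * Real.exp (3 / 2), 11, by positivity, by norm_num, ?_⟩
  intro T t j hT hj hjL
  set L := Real.log T with hL
  have hL1 : 1 ≤ L := by
    rw [hL, Real.le_log_iff_exp_le (by linarith)]
    exact (Real.exp_one_lt_d9.le).trans (by linarith)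
  have hL0 : 0 < L := by linarith
  rw [← norm_neg, neg_sub, diff_eq T t hL0 j]
  set x0 := Real.exp ((j - 1) / L) with hx0
  set x2 := Real.exp ((j + 1) / L) with hx2
  have hx0p : 0 < x0 := Real.exp_pos _
  have hlog : Real.log x2 ≤ L + 1 := by
    rw [hx2, Real.log_exp, add_div]
    have : 1 / L ≤ 1 := by
      rw [div_le_one hL0]
      exact hL1
    linarith
  have hx21 : 1 ≤ x2 := Real.one_le_exp (by positivity)
  have hlog0 : 0 ≤ Real.log x2 := Real.log_nonneg hx21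
  have key : ∀ n ∈ (Finset.range (⌊x2⌋₊ + 1)).filter (fun n => ¬ n.Prime),
      ‖((vonMangoldt n * Real.log n * hatw (1 / L) j n : ℝ) : ℂ) *
        (n : ℂ) ^ (-(1 + t * I : ℂ))‖ ≤ (L + 1) / x0 * vonMangoldt n := by
    intro n hn
    have hnr : n ≤ ⌊x2⌋₊ := Nat.lt_succ_iff.1 (Finset.mem_range.1 (Finset.mem_filter.1 hn).1)
    have hnx : (n : ℝ) ≤ x2 := (Nat.le_floor_iff (by linarith)).1 hnr
    have hL' : 0 ≤ (L + 1) / x0 := by positivity
    rcases Nat.eq_zero_or_pos n with rfl | hn0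
    · rw [vonMangoldt.map_zero]
      simp
    have hn1 : (1 : ℝ) ≤ n := by exact_mod_cast hn0
    have hln : 0 ≤ Real.log n := Real.log_nonneg hn1
    have hlx : Real.log n ≤ L + 1 := (Real.log_le_log (by linarith) hnx).trans hlog
    have hv : 0 ≤ (vonMangoldt n : ℝ) := vonMangoldt_nonneg
    rw [norm_mul, Complex.norm_real, Real.norm_eq_abs, norm_pow t n hn0,
      abs_of_nonneg (mul_nonneg (mul_nonneg hv hln) (hatw_nonneg _ _ _))]
    rcases le_total (n : ℝ) x0 with h | h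
    · rw [hatw_left (1 / L) (by positivity) j n (by
        rw [one_div, inv_mul_eq_div]
        exact h), mul_zero, zero_mul]
      exact mul_nonneg hL' hv
    · have h1 : hatw (1 / L) j n ≤ 1 := hatw_le_one _ (by positivity) _ _
      have h2 : (1 : ℝ) / n ≤ 1 / x0 := one_div_le_one_div_of_le hx0p h
      calc (vonMangoldt n : ℝ) * Real.log n * hatw (1 / L) j n * (1 / n)
          ≤ (vonMangoldt n : ℝ) * (L + 1) * 1 * (1 / x0) := by
            have h3 := hatw_nonneg (1 / L) j (n : ℝ)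
            gcongr
        _ = (L + 1) / x0 * vonMangoldt n := by ring
  refine (norm_sum_le _ _).trans ((Finset.sum_le_sum key).trans ?_)
  rw [← Finset.mul_sum]
  have h5 := sum_nonprime x2 hx21
  have h6 : Real.sqrt x2 / x0 ≤ Real.exp (3 / 2) * Real.exp (-((j : ℝ) / (2 * L))) := by
    rw [hx2, Real.sqrt_eq_rpow, ← Real.exp_mul, hx0, ← Real.exp_sub, ← Real.exp_add,
      Real.exp_le_exp]
    have e1 : (↑j + 1) / L * (1 / 2) - (↑j - 1) / L = 3 / 2 * (1 / L) + -(↑j / (2 * L)) := by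
      field_simp
      ring
    rw [e1]
    have : 1 / L ≤ 1 := by
      rw [div_le_one hL0]
      exact hL1
    linarith
  have h7 : (L + 1) ^ 2 ≤ 4 * L ^ 4 := by
    have e1 : (L + 1) ^ 2 ≤ 4 * L ^ 2 := by nlinarith
    have e2 : L ^ 2 ≤ L ^ 4 := pow_le_pow_right₀ hL1 (by norm_num)
    linarith
  calc (L + 1) / x0 * ∑ n ∈ (Finset.range (⌊x2⌋₊ + 1)).filter (fun n => ¬ n.Prime),
        (vonMangoldt n : ℝ)
      ≤ (L + 1) / x0 * (2 * Real.sqrt x2 * (L + 1)) := by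
        have : 2 * Real.sqrt x2 * Real.log x2 ≤ 2 * Real.sqrt x2 * (L + 1) := by gcongr
        gcongr
        exact h5.trans this
    _ = 2 * (L + 1) ^ 2 * (Real.sqrt x2 / x0) := by ring
    _ ≤ 2 * (4 * L ^ 4) * (Real.exp (3 / 2) * Real.exp (-((j : ℝ) / (2 * L)))) := by gcongr
    _ = 8 * Real.exp (3 / 2) * L ^ 4 * Real.exp (-((j : ℝ) / (2 * L))) := by ring

/-- The sum over all `n`. -/
def SumStatement : Prop := RiemannHypothesis → ∃ C T0 : ℝ, 0 < C ∧ 10 < T0 ∧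
  ∀ (T t : ℝ) (j : ℕ), T0 ≤ T → T / Real.log T ^ 6 ≤ |t| → |t| ≤ T ^ 2 → 1 ≤ j →
    (j : ℝ) / Real.log T ≤ Real.log T →
    ‖∑' n : ℕ, ((vonMangoldt n * Real.log n * hatw (1 / Real.log T) j n : ℝ) : ℂ) *
      (n : ℂ) ^ (-(1 + t * I : ℂ))‖ ≤
      C * Real.log T ^ 4 * Real.exp (-((j : ℝ) / (2 * Real.log T)))

/-- PRBX from the sum over all `n`. -/
theorem prbx_of (h : SumStatement) : PRBXStatement := by
  intro hRH
  obtain ⟨C, T0, hC, hT0, h1⟩ := h hRH
  obtain ⟨C', T0', hC', hT0', h2⟩ := p4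
  refine ⟨C + C', max T0 T0', by positivity, lt_of_lt_of_le hT0 (le_max_left _ _), ?_⟩
  intro T t j hT ht1 ht2 hj hjL
  have e1 := h1 T t j ((le_max_left _ _).trans hT) ht1 ht2 hj hjL
  have e2 := h2 T t j ((le_max_right _ _).trans hT) hj hjL
  have e3 := norm_add_le (Rj T j t - ∑' n : ℕ, ((vonMangoldt n * Real.log n *
    hatw (1 / Real.log T) j n : ℝ) : ℂ) * (n : ℂ) ^ (-(1 + t * I : ℂ)))
    (∑' n : ℕ, ((vonMangoldt n * Real.log n * hatw (1 / Real.log T) j n : ℝ) : ℂ) *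
      (n : ℂ) ^ (-(1 + t * I : ℂ)))
  rw [sub_add_cancel] at e3
  refine e3.trans ((add_le_add e2 e1).trans (le_of_eq ?_))
  ring

end Pool.Agent.Lib.MP_6bc78b_nt.GP.G7.H57
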