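import Pool.Agent.Lib.MP_6bc78b_nt.GP.H43.Defs10b
import Pool.Agent.Lib.MP_6bc78b_nt.GP.H38.Dx2

/-! Project GP10 (MP_6bc78b_nt), row TKBS: the coefficients `b * β` are close to `b` in mean
square. -/

set_option autoImplicit false

open Filter Topology ArithmeticFunction

namespace Pool.Agent.Lib.MP_6bc78b_nt.GP.G10.T57

open Pool.Agent.Lib.MP_6bc78b_nt.MS Pool.Agent.Lib.MP_6bc78b_nt.MS.P1

/-! ### The coefficients change slowly -/

/-- `∑_{d ∣ n} Λ(d) log d`. -/
noncomputable def sl (n : ℕ) : ℝ := ∑ d ∈ n.divisors, vonMangoldt d * Real.log d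

theorem cn_eq {n : ℕ} (hn : n ≠ 0) : cn n = Real.log n ^ 2 - sl n := by
  unfold cn La lg
  rw [ArithmeticFunction.mul_apply, Nat.sum_divisorsAntidiagonal
    (fun a b => (vonMangoldt a : ℝ) * (ArithmeticFunction.log b : ℝ))]
  have h1 : ∀ d ∈ n.divisors, (vonMangoldt d : ℝ) * (ArithmeticFunction.log (n / d) : ℝ) =
      Real.log n * vonMangoldt d - vonMangoldt d * Real.log d := by
    intro d hd
    have hd' := Nat.dvd_of_mem_divisors hd
    have hd0 : d ≠ 0 := fun h => hn (by rw [h] at hd'; exact Nat.eq_zero_of_zero_dvd hd')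
    rw [ArithmeticFunction.log_apply, Nat.cast_div hd' (by exact_mod_cast hd0),
      Real.log_div (by exact_mod_cast hn) (by exact_mod_cast hd0)]
    ring
  rw [Finset.sum_congr rfl h1, Finset.sum_sub_distrib, ← Finset.mul_sum, vonMangoldt_sum, sq, sl]

theorem sl_sub {m l : ℕ} (hm : 0 < m) (hl : 0 < l) :
    0 ≤ sl (m * l) - sl l ∧ sl (m * l) - sl l ≤ Real.log (m * l : ℕ) * Real.log m := by
  have hn : m * l ≠ 0 := (Nat.mul_pos hm hl).ne'
  have hsub : l.divisors ⊆ (m * l).divisors :=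
    Nat.divisors_subset_of_dvd hn (Dvd.intro_left m rfl)
  have h1 : sl (m * l) - sl l = ∑ d ∈ (m * l).divisors \ l.divisors, vonMangoldt d * Real.log d := by
    rw [sl, sl, ← Finset.sum_sdiff hsub]
    ring
  have h2 : Real.log (m * l : ℕ) - Real.log l = ∑ d ∈ (m * l).divisors \ l.divisors, vonMangoldt d := by
    rw [← vonMangoldt_sum, ← vonMangoldt_sum, ← Finset.sum_sdiff hsub]
    ring
  have h3 : Real.log (m * l : ℕ) - Real.log l = Real.log m := by
    rw [Nat.cast_mul, Real.log_mul (by exact_mod_cast hm.ne') (by exact_mod_cast hl.ne')]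
    ring
  rw [h1]
  constructor
  · exact Finset.sum_nonneg fun d _ => mul_nonneg vonMangoldt_nonneg (Real.log_natCast_nonneg d)
  · rw [← h3, h2, Finset.mul_sum]
    refine Finset.sum_le_sum fun d hd => ?_
    rw [mul_comm]
    refine mul_le_mul_of_nonneg_right ?_ vonMangoldt_nonneg
    have hd1 := Nat.dvd_of_mem_divisors (Finset.mem_sdiff.1 hd).1
    have hd0 : 0 < d := Nat.pos_of_dvd_of_pos hd1 (Nat.mul_pos hm hl)
    exact Real.log_le_log (by exact_mod_cast hd0)
      (by exact_mod_cast Nat.le_of_dvd (Nat.mul_pos hm hl) hd1)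

/-- The coefficients change slowly. -/
theorem bn_sub (A B : ℝ) {m l : ℕ} (hm : 0 < m) (hl : 0 < l) :
    |bn A B (m * l) - bn A B l| ≤ (Real.log (m * l : ℕ) + |A|) * Real.log m := by
  have hn : m * l ≠ 0 := (Nat.mul_pos hm hl).ne'
  obtain ⟨h1, h2⟩ := sl_sub hm hl
  have h3 : Real.log (m * l : ℕ) = Real.log m + Real.log l := by
    rw [Nat.cast_mul, Real.log_mul (by exact_mod_cast hm.ne') (by exact_mod_cast hl.ne')]
  have hm0 : 0 ≤ Real.log m := Real.log_natCast_nonneg m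
  have hl0 : 0 ≤ Real.log l := Real.log_natCast_nonneg l
  unfold bn
  rw [if_neg hn, if_neg hl.ne', cn_eq hn, cn_eq hl.ne']
  rw [h3] at h2 ⊢
  have e1 : (Real.log m + Real.log l) ^ 2 - sl (m * l) - (Real.log m + Real.log l) ^ 2 / 2 -
      A * (Real.log m + Real.log l) - B - (Real.log l ^ 2 - sl l - Real.log l ^ 2 / 2 -
      A * Real.log l - B) = ((Real.log m + 2 * Real.log l) * Real.log m / 2 -
        (sl (m * l) - sl l)) - A * Real.log m := by ring
  rw [e1]
  have e2 : |(Real.log m + 2 * Real.log l) * Real.log m / 2 - (sl (m * l) - sl l)| ≤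
      (Real.log m + Real.log l) * Real.log m := by
    rw [abs_le]
    constructor
    · nlinarith
    · nlinarith
  calc |(Real.log m + 2 * Real.log l) * Real.log m / 2 - (sl (m * l) - sl l) - A * Real.log m|
      ≤ |(Real.log m + 2 * Real.log l) * Real.log m / 2 - (sl (m * l) - sl l)| +
        |A * Real.log m| := abs_sub _ _
    _ ≤ (Real.log m + Real.log l) * Real.log m + |A| * Real.log m := by
        rw [abs_mul, abs_of_nonneg hm0]
        linarith
    _ = _ := by ring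

/-! ### Exponential weights -/

theorem part_le {f : ℕ → ℝ} {a c y : ℝ} (hy : 0 ≤ y)
    (hS : ∀ N : ℕ, ∑ n ∈ Finset.Ioc 0 N, f n ≤ a * N + c) (N : ℕ) :
    ∑ n ∈ Finset.Ioc 0 N, (f n - a) * Real.exp (-(n * y)) ≤
      (∑ n ∈ Finset.Ioc 0 N, (f n - a)) * Real.exp (-(N * y)) + c * (1 - Real.exp (-(N * y))) := by
  have hS' : ∀ N : ℕ, ∑ n ∈ Finset.Ioc 0 N, (f n - a) ≤ c := by
    intro N
    rw [Finset.sum_sub_distrib, Finset.sum_const, Nat.card_Ioc, nsmul_eq_mul, Nat.sub_zero]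
    have := hS N
    linarith
  induction N with
  | zero => simp
  | succ N ih =>
    rw [Finset.sum_Ioc_succ_top (Nat.zero_le N), Finset.sum_Ioc_succ_top (Nat.zero_le N)]
    have h1 : Real.exp (-(((N + 1 : ℕ) : ℝ) * y)) ≤ Real.exp (-(N * y)) := by
      apply Real.exp_le_exp.2
      push_cast
      nlinarith
    have h2 := hS' N
    nlinarith

theorem geo_le {y : ℝ} (hy : 0 < y) (N : ℕ) :
    ∑ n ∈ Finset.Ioc 0 N, Real.exp (-(n * y)) ≤ 1 / y := by
  have h1 : ∀ N : ℕ, ∑ n ∈ Finset.Ioc 0 N, Real.exp (-(n * y)) ≤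
      1 / y * (1 - Real.exp (-(N * y))) := by
    intro N
    induction N with
    | zero => simp
    | succ N ih =>
      rw [Finset.sum_Ioc_succ_top (Nat.zero_le N)]
      have h2 : Real.exp (-(N * y)) = Real.exp (-(((N + 1 : ℕ) : ℝ) * y)) * Real.exp y := by
        rw [← Real.exp_add]
        congr 1
        push_cast
        ring
      have h3 := Real.add_one_le_exp y
      have h4 := Real.exp_pos (-(((N + 1 : ℕ) : ℝ) * y))
      have h5 : Real.exp (-(((N + 1 : ℕ) : ℝ) * y)) ≤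
          1 / y * (Real.exp (-(N * y)) - Real.exp (-(((N + 1 : ℕ) : ℝ) * y))) := by
        rw [h2, div_mul_eq_mul_div, one_mul, le_div_iff₀ hy]
        nlinarith
      have h6 : 1 / y * (1 - Real.exp (-(((N + 1 : ℕ) : ℝ) * y))) =
          1 / y * (1 - Real.exp (-(N * y))) +
          1 / y * (Real.exp (-(N * y)) - Real.exp (-(((N + 1 : ℕ) : ℝ) * y))) := by ring
      rw [h6]
      linarith
  refine (h1 N).trans ?_
  have h2 : 0 < Real.exp (-(N * y)) := Real.exp_pos _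
  have h3 : 0 < 1 / y := by positivity
  nlinarith

/-- From partial sums to exponential weights. -/
theorem wsum_le {f : ℕ → ℝ} {a c y : ℝ} (ha : 0 ≤ a) (hy : 0 < y)
    (hS : ∀ N : ℕ, ∑ n ∈ Finset.Ioc 0 N, f n ≤ a * N + c) (N : ℕ) :
    ∑ n ∈ Finset.Ioc 0 N, f n * Real.exp (-(n * y)) ≤ a / y + c := by
  have h1 := part_le hy.le hS N
  have h2 : ∑ n ∈ Finset.Ioc 0 N, (f n - a) ≤ c := by
    rw [Finset.sum_sub_distrib, Finset.sum_const, Nat.card_Ioc, nsmul_eq_mul, Nat.sub_zero]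
    have := hS N
    linarith
  have h3 : ∑ n ∈ Finset.Ioc 0 N, f n * Real.exp (-(n * y)) =
      ∑ n ∈ Finset.Ioc 0 N, (f n - a) * Real.exp (-(n * y)) +
        a * ∑ n ∈ Finset.Ioc 0 N, Real.exp (-(n * y)) := by
    rw [Finset.mul_sum, ← Finset.sum_add_distrib]
    exact Finset.sum_congr rfl fun n _ => by ring
  have h4 := mul_le_mul_of_nonneg_left (geo_le hy N) ha
  have h5 : 0 < Real.exp (-(N * y)) := Real.exp_pos _
  have h6 : (∑ n ∈ Finset.Ioc 0 N, (f n - a)) * Real.exp (-(N * y)) ≤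
      c * Real.exp (-(N * y)) := mul_le_mul_of_nonneg_right h2 h5.le
  rw [h3, div_eq_mul_one_div]
  linarith

theorem log_weight {x : ℝ} (hx : 0 < x) (hx1 : x ≤ 1) {n : ℕ} (hn : 0 < n) :
    1 + Real.log n ≤ (1 + Real.log (1 / x)) * (1 + n * x) := by
  have hn0 : (0 : ℝ) < n := by exact_mod_cast hn
  have h1 : Real.log n = Real.log (n * x) + Real.log (1 / x) := by
    rw [← Real.log_mul (by positivity) (by positivity)]
    congr 1
    field_simp
  have h2 := Real.log_le_sub_one_of_pos (show 0 < n * x by positivity)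
  have h3 : 0 ≤ Real.log (1 / x) := Real.log_nonneg (by rw [le_div_iff₀ hx]; linarith)
  have h4 : 0 < n * x := by positivity
  nlinarith

theorem log_four {x : ℝ} (hx : 0 < x) (hx1 : x ≤ 1) {n : ℕ} (hn : 0 < n) :
    (1 + Real.log n) ^ 4 * Real.exp (-(n * (2 * x))) ≤
      256 * (1 + Real.log (1 / x)) ^ 4 * Real.exp (-(n * x)) := by
  have h1 := log_weight hx hx1 hn
  have h0 : 0 ≤ Real.log n := Real.log_natCast_nonneg n
  have h3 : 0 ≤ Real.log (1 / x) := Real.log_nonneg (by rw [le_div_iff₀ hx]; linarith)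
  have h4 : 0 ≤ n * x := by positivity
  have h5 : 1 + n * x ≤ 4 * Real.exp (n * x / 4) := by
    have := Real.add_one_le_exp (n * x / 4)
    linarith
  have h6 : (1 + Real.log n) ^ 4 ≤ (1 + Real.log (1 / x)) ^ 4 * (256 * Real.exp (n * x)) := by
    calc (1 + Real.log n) ^ 4 ≤ ((1 + Real.log (1 / x)) * (4 * Real.exp (n * x / 4))) ^ 4 :=
          pow_le_pow_left₀ (by linarith) (h1.trans (mul_le_mul_of_nonneg_left h5 (by linarith))) 4
      _ = (1 + Real.log (1 / x)) ^ 4 * (256 * Real.exp (n * x)) := by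
          have e : Real.exp (n * x / 4) ^ 4 = Real.exp (n * x) := by
            rw [← Real.exp_nat_mul]
            congr 1
            push_cast
            ring
          rw [mul_pow, mul_pow, e]
          norm_num
  have h7 : Real.exp (-(n * x)) = Real.exp (n * x) * Real.exp (-(n * (2 * x))) := by
    rw [← Real.exp_add]
    congr 1
    ring
  rw [h7]
  have h8 := mul_le_mul_of_nonneg_right h6 (Real.exp_pos (-(n * (2 * x)))).le
  linarith

theorem log_two {x : ℝ} (hx : 0 < x) (hx1 : x ≤ 1) {n : ℕ} (hn : 0 < n) :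
    (1 + Real.log n) ^ 2 * Real.exp (-(n * (2 * x))) ≤
      4 * (1 + Real.log (1 / x)) ^ 2 * Real.exp (-(n * x)) := by
  have h1 := log_weight hx hx1 hn
  have h0 : 0 ≤ Real.log n := Real.log_natCast_nonneg n
  have h3 : 0 ≤ Real.log (1 / x) := Real.log_nonneg (by rw [le_div_iff₀ hx]; linarith)
  have h5 : 1 + n * x ≤ 2 * Real.exp (n * x / 2) := by
    have := Real.add_one_le_exp (n * x / 2)
    linarith
  have h6 : (1 + Real.log n) ^ 2 ≤ (1 + Real.log (1 / x)) ^ 2 * (4 * Real.exp (n * x)) := by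
    calc (1 + Real.log n) ^ 2 ≤ ((1 + Real.log (1 / x)) * (2 * Real.exp (n * x / 2))) ^ 2 :=
          pow_le_pow_left₀ (by linarith) (h1.trans (mul_le_mul_of_nonneg_left h5 (by linarith))) 2
      _ = (1 + Real.log (1 / x)) ^ 2 * (4 * Real.exp (n * x)) := by
          have e : Real.exp (n * x / 2) ^ 2 = Real.exp (n * x) := by
            rw [← Real.exp_nat_mul]
            congr 1
            push_cast
            ring
          rw [mul_pow, mul_pow, e]
          norm_num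
  have h7 : Real.exp (-(n * x)) = Real.exp (n * x) * Real.exp (-(n * (2 * x))) := by
    rw [← Real.exp_add]
    congr 1
    ring
  rw [h7]
  have h8 := mul_le_mul_of_nonneg_right h6 (Real.exp_pos (-(n * (2 * x)))).le
  linarith

/-! ### The short polynomial -/

/-- `∑_{m ∣ n} β(m)`. -/
noncomputable def bS (S : Finset ℕ) (β : ℕ → ℝ) (n : ℕ) : ℝ :=
  ∑ m ∈ S, if m ∣ n then β m else 0

theorem sum_dvd (N m : ℕ) :
    ∑ n ∈ Finset.Ioc 0 N, (if m ∣ n then (1 : ℝ) else 0) = ((N / m : ℕ) : ℝ) := by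
  rw [Finset.sum_ite, Finset.sum_const_zero, add_zero, Finset.sum_const, nsmul_eq_mul, mul_one,
    Nat.Ioc_filter_dvd_card_eq_div]

section

variable {S : Finset ℕ} {β : ℕ → ℝ} {M ν : ℝ}

theorem bS_nonneg (h : Mol S β M ν) (n : ℕ) : 0 ≤ bS S β n := by
  refine Finset.sum_nonneg fun m _ => ?_
  split_ifs
  · exact h.nonneg m
  · exact le_rfl

theorem sum_beta (h : Mol S β M ν) : ∑ m ∈ S, β m ≤ M := by
  have h1 : ∑ m ∈ S, β m ≤ ∑ m ∈ S, M * (β m / m) := by
    refine Finset.sum_le_sum fun m hm => ?_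
    have h0 : (0 : ℝ) < m := by exact_mod_cast h.one_le m hm
    rw [mul_div_assoc', le_div_iff₀ h0, mul_comm M]
    exact mul_le_mul_of_nonneg_left (h.le m hm) (h.nonneg m)
  rw [← Finset.mul_sum, h.sum_one, mul_one] at h1
  exact h1

theorem sum_bS_ge (h : Mol S β M ν) (N : ℕ) :
    N - M ≤ ∑ n ∈ Finset.Ioc 0 N, bS S β n := by
  have h1 : ∑ n ∈ Finset.Ioc 0 N, bS S β n = ∑ m ∈ S, β m * ((N / m : ℕ) : ℝ) := by
    unfold bS
    rw [Finset.sum_comm]
    refine Finset.sum_congr rfl fun m _ => ?_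
    rw [← sum_dvd, Finset.mul_sum]
    refine Finset.sum_congr rfl fun n _ => ?_
    split_ifs <;> simp
  have h2 : ∑ m ∈ S, (N * (β m / m) - β m) ≤ ∑ m ∈ S, β m * ((N / m : ℕ) : ℝ) := by
    refine Finset.sum_le_sum fun m hm => ?_
    have h0 := h.one_le m hm
    have h0' : (0 : ℝ) < m := by exact_mod_cast h0
    have h3 : (N : ℝ) / m - 1 ≤ ((N / m : ℕ) : ℝ) := by
      have h4 : (N : ℝ) < ((N / m : ℕ) : ℝ) * m + m := by
        exact_mod_cast Nat.lt_div_mul_add (a := N) h0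
      rw [sub_le_iff_le_add, div_le_iff₀ h0']
      linarith
    have h5 := mul_le_mul_of_nonneg_left h3 (h.nonneg m)
    have e : N * (β m / m) - β m = β m * ((N : ℝ) / m - 1) := by ring
    rw [e]
    exact h5
  rw [Finset.sum_sub_distrib, ← Finset.mul_sum, h.sum_one, mul_one] at h2
  have h3 := sum_beta h
  linarith

theorem sum_bS_sq_le (h : Mol S β M ν) (N : ℕ) :
    ∑ n ∈ Finset.Ioc 0 N, bS S β n ^ 2 ≤ (1 + ν) * N := by
  have h1 : ∀ n : ℕ, bS S β n ^ 2 =
      ∑ m ∈ S, ∑ m' ∈ S, β m * β m' * (if Nat.lcm m m' ∣ n then (1 : ℝ) else 0) := by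
    intro n
    unfold bS
    rw [sq, Finset.sum_mul_sum]
    refine Finset.sum_congr rfl fun m _ => Finset.sum_congr rfl fun m' _ => ?_
    have h2 : Nat.lcm m m' ∣ n ↔ m ∣ n ∧ m' ∣ n := ⟨fun h => ⟨(Nat.dvd_lcm_left m m').trans h,
      (Nat.dvd_lcm_right m m').trans h⟩, fun h => Nat.lcm_dvd h.1 h.2⟩
    by_cases hm : m ∣ n
    · by_cases hm' : m' ∣ n
      · rw [if_pos (h2.2 ⟨hm, hm'⟩), if_pos hm, if_pos hm', mul_one]
      · rw [if_neg (fun h => hm' (h2.1 h).2), if_neg hm', mul_zero, mul_zero]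
    · rw [if_neg (fun h => hm (h2.1 h).1), if_neg hm, zero_mul, mul_zero]
  have h2 : ∑ n ∈ Finset.Ioc 0 N, bS S β n ^ 2 =
      ∑ m ∈ S, ∑ m' ∈ S, β m * β m' * ((N / Nat.lcm m m' : ℕ) : ℝ) := by
    rw [Finset.sum_congr rfl fun n _ => h1 n, Finset.sum_comm]
    refine Finset.sum_congr rfl fun m _ => ?_
    rw [Finset.sum_comm]
    refine Finset.sum_congr rfl fun m' _ => ?_
    rw [← sum_dvd, Finset.mul_sum]
  have h3 : ∑ m ∈ S, ∑ m' ∈ S, β m * β m' * ((N / Nat.lcm m m' : ℕ) : ℝ) ≤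
      ∑ m ∈ S, ∑ m' ∈ S, N * (β m * β m' / (Nat.lcm m m' : ℝ)) := by
    refine Finset.sum_le_sum fun m _ => Finset.sum_le_sum fun m' _ => ?_
    have h4 := mul_le_mul_of_nonneg_left (Nat.cast_div_le (α := ℝ) (m := N) (n := Nat.lcm m m'))
      (mul_nonneg (h.nonneg m) (h.nonneg m'))
    refine h4.trans (le_of_eq ?_)
    ring
  rw [h2]
  refine h3.trans ?_
  simp only [← Finset.mul_sum]
  rw [mul_comm (1 + ν)]
  exact mul_le_mul_of_nonneg_left h.sum_lcm (Nat.cast_nonneg N)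

theorem sum_one_sub_bS_le (h : Mol S β M ν) (N : ℕ) :
    ∑ n ∈ Finset.Ioc 0 N, (1 - bS S β n) ^ 2 ≤ ν * N + 2 * M := by
  have h1 := sum_bS_ge h N
  have h2 := sum_bS_sq_le h N
  have h3 : ∑ n ∈ Finset.Ioc 0 N, (1 - bS S β n) ^ 2 = (N : ℝ) -
      2 * ∑ n ∈ Finset.Ioc 0 N, bS S β n + ∑ n ∈ Finset.Ioc 0 N, bS S β n ^ 2 := by
    have h4 : ∀ n ∈ Finset.Ioc 0 N, (1 - bS S β n) ^ 2 = 1 - 2 * bS S β n + bS S β n ^ 2 :=
      fun n _ => by ring
    rw [Finset.sum_congr rfl h4, Finset.sum_add_distrib, Finset.sum_sub_distrib, ← Finset.mul_sum]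
    simp
  rw [h3]
  linarith

theorem am_sub (h : Mol S β M ν) (A B : ℝ) {C : ℝ}
    (hb : ∀ n, |bn A B n| ≤ C * (1 + Real.log n) ^ 2) {n : ℕ} (hn : 0 < n) :
    |am A B S β n - bn A B n| ≤ C * (1 + Real.log n) ^ 2 * |1 - bS S β n| +
      (Real.log n + |A|) * Real.log M * bS S β n := by
  have e2 : ∑ m ∈ S, (if m ∣ n then β m * (bn A B (n / m) - bn A B n) else 0) =
      am A B S β n - bn A B n * bS S β n := by
    rw [bS, am, Finset.mul_sum, ← Finset.sum_sub_distrib]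
    refine Finset.sum_congr rfl fun m _ => ?_
    split_ifs
    · ring
    · ring
  have e1 : am A B S β n - bn A B n = -(bn A B n * (1 - bS S β n)) +
      ∑ m ∈ S, (if m ∣ n then β m * (bn A B (n / m) - bn A B n) else 0) := by
    rw [e2]
    ring
  rw [e1]
  refine (abs_add_le _ _).trans (add_le_add ?_ ?_)
  · rw [abs_neg, abs_mul]
    exact mul_le_mul_of_nonneg_right (hb n) (abs_nonneg _)
  · rw [bS, Finset.mul_sum]
    refine (Finset.abs_sum_le_sum_abs _ _).trans (Finset.sum_le_sum fun m hm => ?_)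
    split_ifs with hd
    · rw [abs_mul, abs_of_nonneg (h.nonneg m), mul_comm]
      refine mul_le_mul_of_nonneg_right ?_ (h.nonneg m)
      have h0 : 0 < m := h.one_le m hm
      have h1 : 0 < n / m := Nat.div_pos (Nat.le_of_dvd hn hd) h0
      have h2 := bn_sub A B h0 h1
      rw [Nat.mul_div_cancel' hd] at h2
      rw [abs_sub_comm]
      have h3 : Real.log m ≤ Real.log M := Real.log_le_log (by exact_mod_cast h0) (h.le m hm)
      refine h2.trans (mul_le_mul_of_nonneg_left h3 ?_)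
      have : 0 ≤ Real.log n := Real.log_natCast_nonneg n
      positivity
    · simp

theorem am_zero (S : Finset ℕ) (β : ℕ → ℝ) (A B : ℝ) : am A B S β 0 - bn A B 0 = 0 := by
  have h1 : bn A B 0 = 0 := by unfold bn; rw [if_pos rfl]
  rw [am, h1, sub_zero]
  refine Finset.sum_eq_zero fun m _ => ?_
  rw [if_pos (dvd_zero m), Nat.zero_div, h1, mul_zero]

/-- The energy of the difference, partial sums. -/
theorem am_energy (h : Mol S β M ν) (hν : 0 ≤ ν) (hM : 1 ≤ M) (A B : ℝ) {C : ℝ}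
    (hb : ∀ n, |bn A B n| ≤ C * (1 + Real.log n) ^ 2)
    {x : ℝ} (hx : 0 < x) (hx1 : x ≤ 1) (N : ℕ) :
    ∑ n ∈ Finset.Ioc 0 N, (am A B S β n - bn A B n) ^ 2 * Real.exp (-(n * (2 * x))) ≤
      512 * C ^ 2 * (1 + Real.log (1 / x)) ^ 4 * (ν / x + 2 * M) +
      8 * ((1 + |A|) * Real.log M * (1 + Real.log (1 / x))) ^ 2 * ((1 + ν) / x) := by
  have hM0 : 0 ≤ Real.log M := Real.log_nonneg hM
  have h1 := wsum_le (f := fun n => bS S β n ^ 2) (a := 1 + ν) (c := 0)
    (by linarith) hx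
    (fun N => by
      have := sum_bS_sq_le h N
      linarith) N
  rw [add_zero] at h1
  have h2 := wsum_le (f := fun n => (1 - bS S β n) ^ 2) (a := ν)
    (c := 2 * M) hν hx (fun N => sum_one_sub_bS_le h N) N
  have h3 : 0 ≤ Real.log (1 / x) := Real.log_nonneg (by rw [le_div_iff₀ hx]; linarith)
  refine le_trans ?_ (add_le_add (mul_le_mul_of_nonneg_left h2 (by positivity))
    (mul_le_mul_of_nonneg_left h1 (by positivity)))
  rw [Finset.mul_sum, Finset.mul_sum, ← Finset.sum_add_distrib]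
  refine Finset.sum_le_sum fun n hn => ?_
  have hn0 : 0 < n := (Finset.mem_Ioc.1 hn).1
  have h4 := log_four hx hx1 hn0
  have h4' := log_two hx hx1 hn0
  have hlog : 0 ≤ Real.log n := Real.log_natCast_nonneg n
  have hbq := bS_nonneg h n
  have h6 : Real.log n + |A| ≤ (1 + |A|) * (1 + Real.log n) := by
    have := abs_nonneg A
    nlinarith
  have h7 : |am A B S β n - bn A B n| ≤ C * (1 + Real.log n) ^ 2 * |1 - bS S β n| +
      (1 + |A|) * (1 + Real.log n) * Real.log M * bS S β n := by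
    refine (am_sub h A B hb hn0).trans ?_
    have := mul_le_mul_of_nonneg_right (mul_le_mul_of_nonneg_right h6 hM0) hbq
    linarith
  have h5 : (am A B S β n - bn A B n) ^ 2 ≤
      2 * (C * (1 + Real.log n) ^ 2 * |1 - bS S β n|) ^ 2 +
      2 * ((1 + |A|) * (1 + Real.log n) * Real.log M * bS S β n) ^ 2 := by
    rw [← sq_abs]
    refine (pow_le_pow_left₀ (abs_nonneg _) h7 2).trans ?_
    nlinarith [sq_nonneg (C * (1 + Real.log n) ^ 2 * |1 - bS S β n| -
      (1 + |A|) * (1 + Real.log n) * Real.log M * bS S β n)]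
  calc (am A B S β n - bn A B n) ^ 2 * Real.exp (-(n * (2 * x)))
      ≤ (2 * (C * (1 + Real.log n) ^ 2 * |1 - bS S β n|) ^ 2 +
        2 * ((1 + |A|) * (1 + Real.log n) * Real.log M * bS S β n) ^ 2) *
          Real.exp (-(n * (2 * x))) :=
        mul_le_mul_of_nonneg_right h5 (Real.exp_pos _).le
    _ = 2 * C ^ 2 * (1 - bS S β n) ^ 2 * ((1 + Real.log n) ^ 4 * Real.exp (-(n * (2 * x)))) +
        2 * ((1 + |A|) * Real.log M) ^ 2 * bS S β n ^ 2 *
          ((1 + Real.log n) ^ 2 * Real.exp (-(n * (2 * x)))) := by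
        rw [mul_pow, sq_abs]
        ring
    _ ≤ 2 * C ^ 2 * (1 - bS S β n) ^ 2 *
          (256 * (1 + Real.log (1 / x)) ^ 4 * Real.exp (-(n * x))) +
        2 * ((1 + |A|) * Real.log M) ^ 2 * bS S β n ^ 2 *
          (4 * (1 + Real.log (1 / x)) ^ 2 * Real.exp (-(n * x))) :=
        add_le_add (mul_le_mul_of_nonneg_left h4 (by positivity))
          (mul_le_mul_of_nonneg_left h4' (by positivity))
    _ = _ := by ring

end

/-! ### The size of the parameters -/

theorem loglog_pow (p : ℕ) {c : ℝ} (hc : 0 < c) :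
    ∀ᶠ T : ℝ in atTop, Real.log (Real.log T) ^ p ≤ c * Real.log T := by
  have h1 := (isLittleO_log_rpow_atTop (r := 1) one_pos)
  have h2 : ∀ᶠ u : ℝ in atTop, Real.log u ^ p ≤ c * u := by
    have h3 := (Real.isLittleO_pow_log_id_atTop (n := p)).bound hc
    filter_upwards [h3, eventually_ge_atTop (1 : ℝ)] with u hu hu1
    rw [Real.norm_eq_abs, Real.norm_eq_abs, id, abs_of_nonneg (by linarith : (0 : ℝ) ≤ u)] at hu
    exact (le_abs_self _).trans hu
  exact Real.tendsto_log_atTop.eventually h2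

theorem exp_small {c : ℝ} (hc : 0 < c) :
    ∀ᶠ T : ℝ in atTop, Real.exp (Real.log (Real.log T) ^ 5) ≤ c * T := by
  have h2 : ∀ᶠ T : ℝ in atTop, 2 * |Real.log c| ≤ Real.log T :=
    Real.tendsto_log_atTop.eventually (eventually_ge_atTop _)
  filter_upwards [loglog_pow 5 (show (0 : ℝ) < 1 / 2 by norm_num), h2,
    eventually_gt_atTop (0 : ℝ)] with T h1 h3 h4
  have h5 : Real.log (Real.log T) ^ 5 ≤ Real.log (c * T) := by
    rw [Real.log_mul hc.ne' h4.ne']
    have := neg_abs_le (Real.log c)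
    linarith
  calc Real.exp (Real.log (Real.log T) ^ 5) ≤ Real.exp (Real.log (c * T)) :=
        Real.exp_le_exp.2 h5
    _ = c * T := Real.exp_log (by positivity)

/-- TKBS. -/
theorem tkbs : TKBSStatement := by
  intro A B a ha
  obtain ⟨C, hC, hb⟩ := (GP.H38.dx2 A B).2.2
  refine ⟨16384 * C ^ 2 * (1 / a + 1) + 64 * (1 + |A|) ^ 2 / a, by positivity, fun ε hε => ?_⟩
  have hev : ∀ᶠ T : ℝ in atTop, 10 < T ∧ a ≤ T ∧ 1 + |Real.log a| ≤ Real.log T ∧
      1 ≤ Real.log (Real.log T) ∧ Real.exp (Real.log (Real.log T) ^ 5) ≤ ε * T ∧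
      Real.log (Real.log T) ^ 10 ≤ ε * Real.log T := by
    filter_upwards [eventually_gt_atTop (10 : ℝ), eventually_ge_atTop a,
      Real.tendsto_log_atTop.eventually (eventually_ge_atTop (1 + |Real.log a|)),
      (Real.tendsto_log_atTop.comp Real.tendsto_log_atTop).eventually (eventually_ge_atTop 1),
      exp_small hε, loglog_pow 10 hε] with T h1 h2 h3 h4 h5 h6
    exact ⟨h1, h2, h3, h4, h5, h6⟩
  obtain ⟨T1, hT1⟩ := eventually_atTop.1 hev
  refine ⟨max T1 11, by have := le_max_right T1 11; linarith, ?_⟩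
  intro T ν S β hT hν hν1 hmol
  obtain ⟨h10, haT, hlog, hll, hexp, hl10⟩ := hT1 T ((le_max_left _ _).trans hT)
  have hT0 : 0 < T := by linarith
  set L := Real.log T with hL
  set l := Real.log L with hl
  have hL1 : 1 ≤ L := by have := abs_nonneg (Real.log a); linarith
  have hx : 0 < a / T := by positivity
  have hx1 : a / T ≤ 1 := by rw [div_le_one hT0]; exact haT
  have hlx : 1 + Real.log (1 / (a / T)) ≤ 2 * L := by
    rw [one_div_div, Real.log_div hT0.ne' ha.ne']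
    have := neg_abs_le (Real.log a)
    linarith
  have hlx0 : 0 ≤ 1 + Real.log (1 / (a / T)) := by
    have : 0 ≤ Real.log (1 / (a / T)) := Real.log_nonneg (by rw [le_div_iff₀ hx]; linarith)
    linarith
  refine Real.tsum_le_of_sum_range_le (fun n => mul_nonneg (sq_nonneg _) (Real.exp_pos _).le) ?_
  intro N
  have h1 : ∑ n ∈ Finset.range N, (am A B S β n - bn A B n) ^ 2 * Real.exp (-(2 * a / T * n)) ≤
      ∑ n ∈ Finset.Ioc 0 N, (am A B S β n - bn A B n) ^ 2 *
        Real.exp (-(n * (2 * (a / T)))) := by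
    have e : ∀ n : ℕ, -(2 * a / T * n) = -(n * (2 * (a / T))) := fun n => by ring
    simp only [e]
    have h2 : Finset.range N ⊆ insert 0 (Finset.Ioc 0 N) := by
      intro n hn
      rw [Finset.mem_range] at hn
      rw [Finset.mem_insert, Finset.mem_Ioc]
      omega
    refine (Finset.sum_le_sum_of_subset_of_nonneg h2
      fun n _ _ => mul_nonneg (sq_nonneg _) (Real.exp_pos _).le).trans ?_
    rw [Finset.sum_insert (by simp), am_zero]
    simp
  refine h1.trans ?_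
  have hM : 1 ≤ Real.exp (l ^ 5) := Real.one_le_exp (by positivity)
  refine (am_energy hmol hν.le hM A B hb hx hx1 N).trans ?_
  rw [Real.log_exp]
  have hp4 : (1 + Real.log (1 / (a / T))) ^ 4 ≤ (2 * L) ^ 4 := pow_le_pow_left₀ hlx0 hlx 4
  have hp2 : (1 + Real.log (1 / (a / T))) ^ 2 ≤ (2 * L) ^ 2 := pow_le_pow_left₀ hlx0 hlx 2
  have e1 : ν / (a / T) = ν * T / a := by field_simp
  have e2 : (1 + ν) / (a / T) ≤ 2 * T / a := by
    rw [div_div_eq_mul_div]
    gcongr
    linarith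
  have b1 : 512 * C ^ 2 * (1 + Real.log (1 / (a / T))) ^ 4 *
      (ν / (a / T) + 2 * Real.exp (l ^ 5)) ≤
      512 * C ^ 2 * (2 * L) ^ 4 * (ν * T / a + 2 * (ε * T)) := by
    rw [e1]
    gcongr
  have b2 : 8 * ((1 + |A|) * l ^ 5 * (1 + Real.log (1 / (a / T)))) ^ 2 * ((1 + ν) / (a / T)) ≤
      8 * ((1 + |A|) ^ 2 * (ε * L) * (2 * L) ^ 2) * (2 * T / a) := by
    have e3 : ((1 + |A|) * l ^ 5 * (1 + Real.log (1 / (a / T)))) ^ 2 =
        (1 + |A|) ^ 2 * l ^ 10 * (1 + Real.log (1 / (a / T))) ^ 2 := by ring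
    rw [e3]
    gcongr
  refine (add_le_add b1 b2).trans ?_
  have hL4 : L ^ 3 ≤ L ^ 4 := pow_le_pow_right₀ hL1 (by norm_num)
  have c1 : 512 * C ^ 2 * (2 * L) ^ 4 * (ν * T / a + 2 * (ε * T)) ≤
      16384 * C ^ 2 * (1 / a + 1) * (ν + ε) * T * L ^ 4 := by
    have e4 : 16384 * C ^ 2 * (1 / a + 1) * (ν + ε) * T * L ^ 4 -
        512 * C ^ 2 * (2 * L) ^ 4 * (ν * T / a + 2 * (ε * T)) =
        8192 * C ^ 2 * T * L ^ 4 * (ν / a + 2 * ν + 2 * (ε / a)) := by
      field_simp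
      ring
    have : 0 ≤ 8192 * C ^ 2 * T * L ^ 4 * (ν / a + 2 * ν + 2 * (ε / a)) := by positivity
    linarith
  have c2 : 8 * ((1 + |A|) ^ 2 * (ε * L) * (2 * L) ^ 2) * (2 * T / a) ≤
      64 * (1 + |A|) ^ 2 / a * (ν + ε) * T * L ^ 4 := by
    have e5 : 8 * ((1 + |A|) ^ 2 * (ε * L) * (2 * L) ^ 2) * (2 * T / a) =
        64 * (1 + |A|) ^ 2 / a * ε * T * L ^ 3 := by ring
    rw [e5]
    have h5 : 64 * (1 + |A|) ^ 2 / a * ε * T * L ^ 3 ≤
        64 * (1 + |A|) ^ 2 / a * ε * T * L ^ 4 := by gcongr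
    have h6 : 0 ≤ 64 * (1 + |A|) ^ 2 / a * ν * T * L ^ 4 := by positivity
    linarith
  linarith

end Pool.Agent.Lib.MP_6bc78b_nt.GP.G10.T57
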