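import Pool.Agent.Lib.MP_6bc78b_nt.GP.H57.Tkbs
import Pool.Agent.Lib.MP_6bc78b_nt.GP.H43.Defs10t

/-! Project GP10 (MP_6bc78b_nt), row TKBT: the coefficients `b * β` are close to `b` in mean
square, length `T^η`. -/

set_option autoImplicit false

open Filter Topology ArithmeticFunction

namespace Pool.Agent.Lib.MP_6bc78b_nt.GP.G10.T57

open Pool.Agent.Lib.MP_6bc78b_nt.MS Pool.Agent.Lib.MP_6bc78b_nt.MS.P1

theorem rpow_small {c : ℝ} (hc : 0 < c) :
    ∀ᶠ T : ℝ in atTop, T ^ (1 / 100 : ℝ) ≤ c * T := by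
  have h1 : ∀ᶠ T : ℝ in atTop, 1 / c ≤ T ^ (99 / 100 : ℝ) :=
    (tendsto_rpow_atTop (show (0 : ℝ) < 99 / 100 by norm_num)).eventually
      (eventually_ge_atTop _)
  filter_upwards [h1, eventually_gt_atTop (0 : ℝ)] with T h2 h3
  have e : T ^ (1 / 100 : ℝ) * T ^ (99 / 100 : ℝ) = T := by
    rw [← Real.rpow_add h3]
    norm_num
  have h4 : 0 < T ^ (1 / 100 : ℝ) := Real.rpow_pos_of_pos h3 _
  have h5 := mul_le_mul_of_nonneg_left h2 h4.le
  rw [e] at h5
  have h6 := mul_le_mul_of_nonneg_left h5 hc.le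
  have e2 : c * (T ^ (1 / 100 : ℝ) * (1 / c)) = T ^ (1 / 100 : ℝ) := by field_simp
  linarith

/-- TKBT. -/
theorem tkbt : TKBTStatement := by
  intro A B a ha
  obtain ⟨C, hC, hb⟩ := (GP.H38.dx2 A B).2.2
  refine ⟨16384 * C ^ 2 * (1 / a + 1) + 64 * (1 + |A|) ^ 2 / a, by positivity, fun ε hε => ?_⟩
  have hev : ∀ᶠ T : ℝ in atTop, 10 < T ∧ a ≤ T ∧ 1 + |Real.log a| ≤ Real.log T ∧
      T ^ (1 / 100 : ℝ) ≤ ε * T := by
    filter_upwards [eventually_gt_atTop (10 : ℝ), eventually_ge_atTop a,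
      Real.tendsto_log_atTop.eventually (eventually_ge_atTop (1 + |Real.log a|)),
      rpow_small hε] with T h1 h2 h3 h4
    exact ⟨h1, h2, h3, h4⟩
  obtain ⟨T1, hT1⟩ := eventually_atTop.1 hev
  refine ⟨max T1 11, by have := le_max_right T1 11; linarith, ?_⟩
  intro T ν η S β hT hν hν1 hη hη1 hmol
  obtain ⟨h10, haT, hlog, hexp0⟩ := hT1 T ((le_max_left _ _).trans hT)
  have hT0 : 0 < T := by linarith
  set L := Real.log T with hL
  have hexp : T ^ η ≤ ε * T :=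
    (Real.rpow_le_rpow_of_exponent_le (by linarith) hη1).trans hexp0
  have hL1 : 1 ≤ L := by have := abs_nonneg (Real.log a); linarith
  have hx : 0 < a / T := by positivity
  have hx1 : a / T ≤ 1 := by rw [div_le_one hT0]; exact haT
  have hlx : 1 + Real.log (1 / (a / T)) ≤ 2 * L := by
    rw [one_div_div, Real.log_div hT0.ne' ha.ne']
    have := neg_abs_le (Real.log a)
    linarith
  have hlx0 : 0 ≤ 1 + Real.log (1 / (a / T)) := by
    have : 0 ≤ Real.log (1 / (a / T)) := Real.log_nonneg (by rw [le_div_iff₀ hx]; linarith)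
    linarith
  refine Real.tsum_le_of_sum_range_le (fun n => mul_nonneg (sq_nonneg _) (Real.exp_pos _).le) ?_
  intro N
  have h1 : ∑ n ∈ Finset.range N, (am A B S β n - bn A B n) ^ 2 * Real.exp (-(2 * a / T * n)) ≤
      ∑ n ∈ Finset.Ioc 0 N, (am A B S β n - bn A B n) ^ 2 *
        Real.exp (-(n * (2 * (a / T)))) := by
    have e : ∀ n : ℕ, -(2 * a / T * n) = -(n * (2 * (a / T))) := fun n => by ring
    simp only [e]
    have h2 : Finset.range N ⊆ insert 0 (Finset.Ioc 0 N) := by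
      intro n hn
      rw [Finset.mem_range] at hn
      rw [Finset.mem_insert, Finset.mem_Ioc]
      omega
    refine (Finset.sum_le_sum_of_subset_of_nonneg h2
      fun n _ _ => mul_nonneg (sq_nonneg _) (Real.exp_pos _).le).trans ?_
    rw [Finset.sum_insert (by simp), am_zero]
    simp
  refine h1.trans ?_
  have hM : 1 ≤ T ^ η := Real.one_le_rpow (by linarith) hη.le
  refine (am_energy hmol hν.le hM A B hb hx hx1 N).trans ?_
  rw [Real.log_rpow hT0, ← hL]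
  have hp4 : (1 + Real.log (1 / (a / T))) ^ 4 ≤ (2 * L) ^ 4 := pow_le_pow_left₀ hlx0 hlx 4
  have hp2 : (1 + Real.log (1 / (a / T))) ^ 2 ≤ (2 * L) ^ 2 := pow_le_pow_left₀ hlx0 hlx 2
  have e1 : ν / (a / T) = ν * T / a := by field_simp
  have e2 : (1 + ν) / (a / T) ≤ 2 * T / a := by
    rw [div_div_eq_mul_div]
    gcongr
    linarith
  have b1 : 512 * C ^ 2 * (1 + Real.log (1 / (a / T))) ^ 4 *
      (ν / (a / T) + 2 * T ^ η) ≤
      512 * C ^ 2 * (2 * L) ^ 4 * (ν * T / a + 2 * (ε * T)) := by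
    rw [e1]
    gcongr
  have b2 : 8 * ((1 + |A|) * (η * L) * (1 + Real.log (1 / (a / T)))) ^ 2 *
      ((1 + ν) / (a / T)) ≤
      8 * ((1 + |A|) ^ 2 * (η * L ^ 2) * (2 * L) ^ 2) * (2 * T / a) := by
    have e3 : ((1 + |A|) * (η * L) * (1 + Real.log (1 / (a / T)))) ^ 2 =
        (1 + |A|) ^ 2 * (η ^ 2 * L ^ 2) * (1 + Real.log (1 / (a / T))) ^ 2 := by ring
    have e4 : η ^ 2 ≤ η := by nlinarith
    rw [e3]
    gcongr
  refine (add_le_add b1 b2).trans ?_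
  have c1 : 512 * C ^ 2 * (2 * L) ^ 4 * (ν * T / a + 2 * (ε * T)) ≤
      16384 * C ^ 2 * (1 / a + 1) * (ν + η + ε) * T * L ^ 4 := by
    have e4 : 16384 * C ^ 2 * (1 / a + 1) * (ν + η + ε) * T * L ^ 4 -
        512 * C ^ 2 * (2 * L) ^ 4 * (ν * T / a + 2 * (ε * T)) =
        8192 * C ^ 2 * T * L ^ 4 * (ν / a + 2 * ν + 2 * (ε / a) + 2 * (1 / a + 1) * η) := by
      field_simp
      ring
    have : 0 ≤ 8192 * C ^ 2 * T * L ^ 4 *
        (ν / a + 2 * ν + 2 * (ε / a) + 2 * (1 / a + 1) * η) := by positivity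
    linarith
  have c2 : 8 * ((1 + |A|) ^ 2 * (η * L ^ 2) * (2 * L) ^ 2) * (2 * T / a) ≤
      64 * (1 + |A|) ^ 2 / a * (ν + η + ε) * T * L ^ 4 := by
    have e5 : 8 * ((1 + |A|) ^ 2 * (η * L ^ 2) * (2 * L) ^ 2) * (2 * T / a) =
        64 * (1 + |A|) ^ 2 / a * η * T * L ^ 4 := by ring
    rw [e5]
    have h6 : 0 ≤ 64 * (1 + |A|) ^ 2 / a * (ν + ε) * T * L ^ 4 := by positivity
    linarith
  linarith

end Pool.Agent.Lib.MP_6bc78b_nt.GP.G10.T57
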